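import Pool.Agent.H826Z.Iid.Spec

set_option autoImplicit false

namespace Pool.Agent.H741Z.IidSq1

open Pool.Agent.Helper579.Iid Pool.Agent.H826Z.Iid MeasureTheory Set Filter
open scoped ENNReal Topology

lemma rate_eq : rate 2 1 4 ∞ = 1 / 4 := by
  unfold rate
  simp only [ENNReal.toReal_inv, ENNReal.toReal_top, inv_zero, sub_zero]
  have h4 : (4 : ℝ≥0∞).toReal = 4 := by norm_num
  rw [h4]
  norm_num

lemma root4 {x : ℝ} (hx : 0 ≤ x) : x ^ (1 / 4 : ℝ) = Real.sqrt (Real.sqrt x) := by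
  rw [Real.sqrt_eq_rpow, Real.sqrt_eq_rpow, ← Real.rpow_mul hx]
  norm_num

lemma grid_USq {M : ℕ} (hM : 1 ≤ M) : Grid USq (2 * M) M (fun _ => 0) where
  hM := hM
  hN := rfl
  l0 := fun _ => le_rfl
  isOpen := isOpen_USq
  row := by
    intro j hj0 hjN x h1 h2 h3 h4
    have hN : (0 : ℝ) < (2 * M : ℕ) := by exact_mod_cast (by omega : 0 < 2 * M)
    have hj0' : (0 : ℝ) ≤ j := by exact_mod_cast hj0
    have hjN' : (j : ℝ) + 1 ≤ (2 * M : ℕ) := by exact_mod_cast hjN
    rw [Int.cast_zero, neg_zero] at h1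
    refine ⟨⟨?_, ?_⟩, ?_, ?_⟩ <;>
    · by_contra hcon
      push Not at hcon
      nlinarith
  vol := by rw [volume_USq]; norm_num
  vol0 := by rw [volume_USq]; norm_num

lemma upper_USq {M : ℕ} (hM : 1 ≤ M) :
    minErr USq 1 4 ∞ .ran ((2 * M) ^ 2) ≤ ENNReal.ofReal (Cg * Real.sqrt (1 / (2 * M : ℕ))) := by
  have hG := grid_USq hM
  have hN := hG.Npos
  have h := upper_grid hG (τ := 0) le_rfl (fun f g₀ g₁ _ =>
    ae_restrict_of_forall_mem isOpen_USq.measurableSet fun z hz => by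
      obtain ⟨⟨a1, a2⟩, a3, a4⟩ := id hz
      set N := 2 * M with hNdef
      set i : ℤ := ⌊z 0 * N⌋ with hi
      set j : ℤ := ⌊z 1 * N⌋ with hj
      have hci : cellIdx N z = (i, j) := rfl
      have hj0 : 0 ≤ j := by rw [hj, Int.le_floor, Int.cast_zero]; positivity
      have hjN : j < N := by rw [hj, Int.floor_lt, Int.cast_natCast]; nlinarith
      have hiN : i < N := by rw [hi, Int.floor_lt, Int.cast_natCast]; nlinarith
      have hi0 : 0 ≤ i := by rw [hi, Int.le_floor, Int.cast_zero]; positivity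
      have hc : cidx N (fun _ => 0) z = (i, j) := by
        unfold cidx
        rw [hci]
        simp only
        rw [neg_zero, max_eq_left hi0]
      rw [hc]
      refine ⟨mem_cells.mpr ⟨⟨by simp only; omega, hiN⟩, ⟨hj0, hjN⟩, by simpa using hi0⟩, z, hz,
        closure_cbox_of_cellIdx hN hci, ?_⟩
      rw [sub_self, abs_zero])
  rwa [zero_add] at h

theorem sq1 : S_SQ1 := by
  refine ⟨2 * Cg, ?_⟩
  filter_upwards [eventually_ge_atTop 4] with n hn
  have hC := Cg_pos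
  set M := Nat.sqrt n / 2 with hM
  have hs2 : 2 ≤ Nat.sqrt n := Nat.le_sqrt.2 hn
  have hM1 : 1 ≤ M := by omega
  have h1 : (2 * M) ^ 2 ≤ n :=
    (Nat.pow_le_pow_left (by omega : 2 * M ≤ Nat.sqrt n) 2).trans (Nat.sqrt_le' n)
  have h2 : n ≤ (4 * (2 * M)) ^ 2 :=
    (Nat.lt_succ_sqrt' n).le.trans (Nat.pow_le_pow_left (by omega) 2)
  have hp : IsProbabilityMeasure (unif USq) :=
    unif_isProb (by rw [volume_USq]; norm_num) (by rw [volume_USq]; norm_num)
  have h3 := (minErr_antitone (s := 1) (p := 4) (q := ∞) hp .ran h1).trans (upper_USq hM1)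
  have hN : (0 : ℝ) < (2 * M : ℕ) := by exact_mod_cast (by omega : 0 < 2 * M)
  have h4 : (n : ℝ) ^ (1 / 4 : ℝ) ≤ 2 * Real.sqrt (2 * M : ℕ) := by
    rw [root4 (Nat.cast_nonneg n)]
    have e1 : Real.sqrt n ≤ 4 * (2 * M : ℕ) := by
      rw [Real.sqrt_le_left (by positivity)]
      exact_mod_cast h2
    calc Real.sqrt (Real.sqrt n) ≤ Real.sqrt (2 ^ 2 * (2 * M : ℕ)) :=
          Real.sqrt_le_sqrt (by linarith)
      _ = _ := by rw [Real.sqrt_mul (by positivity), Real.sqrt_sq (by norm_num)]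
  unfold scaled
  rw [rate_eq]
  calc minErr USq 1 4 ∞ .ran n * ENNReal.ofReal ((n : ℝ) ^ (1 / 4 : ℝ))
      ≤ ENNReal.ofReal (Cg * Real.sqrt (1 / (2 * M : ℕ)))
        * ENNReal.ofReal (2 * Real.sqrt (2 * M : ℕ)) := by gcongr
    _ = ENNReal.ofReal (2 * Cg) := by
        rw [← ENNReal.ofReal_mul (by positivity)]
        congr 1
        have : Real.sqrt (1 / (2 * M : ℕ)) * Real.sqrt (2 * M : ℕ) = 1 := by
          rw [← Real.sqrt_mul (by positivity), one_div_mul_cancel hN.ne', Real.sqrt_one]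
        linear_combination (2 * Cg) * this

end Pool.Agent.H741Z.IidSq1
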