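import Mathlib

set_option autoImplicit false

namespace Pool.Agent.H741Z.NConj

open Filter

/-- A splitting of the constant `C` into `r` pairwise coprime pieces, coprime to `W`, without
small linear relations. -/
def Good (W C : ℤ) (r : ℕ) (z : Fin r → ℤ) : Prop :=
  (∀ i j, i ≠ j → IsCoprime (z i) (z j)) ∧ (∀ i, IsCoprime (z i) W) ∧ (∑ i, z i = C) ∧
  (∀ c : Fin r → ℤ, (∀ i, |c i| ≤ 2) → ∑ i, c i * z i = 0 → ∀ i, c i = 0)

lemma Good.ne_zero {W C : ℤ} {r : ℕ} {z : Fin r → ℤ} (h : Good W C r z) (i : Fin r) :
    z i ≠ 0 := by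
  intro h0
  have := h.2.2.2 (Pi.single i 1) (fun j => by
    by_cases hj : j = i
    · subst hj; simp
    · simp [Pi.single_eq_of_ne hj]) (by
      rw [Finset.sum_eq_single i]
      · simp [h0]
      · intro j _ hj; simp [Pi.single_eq_of_ne hj]
      · simp) i
  simp at this

lemma abs_sum_le {r : ℕ} (c z : Fin r → ℤ) (m : ℤ) (hc : ∀ i, |c i| ≤ m) :
    |∑ i, c i * z i| ≤ m * ∑ i, |z i| := by
  rw [Finset.mul_sum]
  refine (Finset.abs_sum_le_sum_abs _ _).trans (Finset.sum_le_sum fun i _ => ?_)
  rw [abs_mul]
  exact mul_le_mul_of_nonneg_right (hc i) (abs_nonneg _)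

lemma eq_zero_of_big (c A s : ℤ) (h : c * A + s = 0) (hs : |s| < A) : c = 0 := by
  by_contra hc
  have hA : 0 < A := lt_of_le_of_lt (abs_nonneg _) hs
  have h1 : 1 ≤ |c| := Int.one_le_abs hc
  have h2 : |c * A| = |s| := by
    have : c * A = -s := by linarith
    rw [this, abs_neg]
  rw [abs_mul, abs_of_pos hA] at h2
  nlinarith

lemma step (W C : ℤ) (hW : W ≠ 0) (h2 : (2 : ℤ) ∣ W) (r : ℕ) (z : Fin (r + 1) → ℤ)
    (h : Good W C (r + 1) z) : ∃ z', Good W C (r + 3) z' := by
  obtain ⟨hc, hw, hs, hr⟩ := id h
  set Z : ℤ := ∑ i, |z i| with hZ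
  have hZ0 : 0 ≤ Z := Finset.sum_nonneg fun i _ => abs_nonneg _
  have hz0 : |z 0| ≤ Z :=
    Finset.single_le_sum (f := fun i => |z i|) (fun i _ => abs_nonneg _) (Finset.mem_univ 0)
  set P : ℤ := W * ∏ i, z i with hP
  have hP0 : P ≠ 0 := mul_ne_zero hW (Finset.prod_ne_zero_iff.2 fun i _ => h.ne_zero i)
  have hP1 : 1 ≤ P ^ 2 := by
    have := pow_pos (abs_pos.2 hP0) 2
    rw [sq_abs] at this
    omega
  obtain ⟨L, hL⟩ : ∃ L : ℤ, L = P ^ 2 * (2 * Z + 12) := ⟨_, rfl⟩
  have hLge : 2 * Z + 12 ≤ L := by rw [hL]; nlinarith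
  have hPL : P ∣ L := by rw [hL]; exact Dvd.dvd.mul_right (dvd_pow_self P (by norm_num)) _
  have hWL : W ∣ L := (Dvd.intro _ rfl : W ∣ P).trans hPL
  have hzL : ∀ i, z i ∣ L := fun i =>
    (Dvd.dvd.mul_left (Finset.dvd_prod_of_mem z (Finset.mem_univ i)) W : z i ∣ P).trans hPL
  obtain ⟨u, hu⟩ : ∃ u : ℤ, u = 1 + L := ⟨_, rfl⟩
  obtain ⟨k, hk⟩ : ∃ k : ℤ, k = u + z 0 := ⟨_, rfl⟩
  have huL : IsCoprime u L := ⟨1, -1, by rw [hu]; ring⟩
  have hud : ∀ d, d ∣ L → IsCoprime u d := fun d hd => huL.of_isCoprime_of_dvd_right hd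
  have huk : IsCoprime u k := by
    have := (hud _ (hzL 0)).add_mul_left_right 1
    rwa [show z 0 + u * 1 = k by rw [hk]; ring] at this
  have haL : IsCoprime (u + L * k) L := ⟨1, -1 - k, by rw [hu]; ring⟩
  have had : ∀ d, d ∣ L → IsCoprime (u + L * k) d := fun d hd =>
    haL.of_isCoprime_of_dvd_right hd
  have hzd : ∀ d, d ∣ L → IsCoprime (z 0) d → IsCoprime (z 0 - L * k) d := by
    rintro d ⟨e, he⟩ hd
    have := hd.add_mul_left_left (-(e * k))
    rwa [show z 0 + d * -(e * k) = z 0 - L * k by rw [he]; ring] at this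
  have hab : IsCoprime (u + L * k) (-u) := by
    have := (huL.mul_right huk).symm.add_mul_left_left 1
    rw [show L * k + u * 1 = u + L * k by ring] at this
    exact this.neg_right
  have haz : IsCoprime (u + L * k) (z 0 - L * k) := by
    have h1 := huk.add_mul_right_left L
    have := h1.add_mul_left_right (-1)
    rwa [show k + (u + L * k) * -1 = z 0 - L * k by rw [hk]; ring] at this
  have hbz : IsCoprime (-u) (z 0 - L * k) := by
    have h1 := ((hud 2 (h2.trans hWL)).mul_right (hud _ (hzL 0))).add_mul_left_right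
      (1 - u - z 0)
    rw [show 2 * z 0 + u * (1 - u - z 0) = z 0 - L * k by rw [hk, hu]; ring] at h1
    exact h1.neg_left
  refine ⟨Fin.cons (u + L * k) (Fin.cons (-u) (Fin.cons (z 0 - L * k) (Fin.tail z))),
    ?_, ?_, ?_, ?_⟩
  · intro i j hij
    induction i using Fin.cases with
    | zero =>
      induction j using Fin.cases with
      | zero => exact absurd rfl hij
      | succ j =>
        induction j using Fin.cases with
        | zero => simpa only [Fin.cons_zero, Fin.cons_succ] using hab
        | succ j =>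
          induction j using Fin.cases with
          | zero => simpa only [Fin.cons_zero, Fin.cons_succ] using haz
          | succ j => simpa only [Fin.cons_zero, Fin.cons_succ, Fin.tail] using had _ (hzL j.succ)
    | succ i =>
      induction i using Fin.cases with
      | zero =>
        induction j using Fin.cases with
        | zero => simpa only [Fin.cons_zero, Fin.cons_succ] using hab.symm
        | succ j =>
          induction j using Fin.cases with
          | zero => exact absurd rfl hij
          | succ j =>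
            induction j using Fin.cases with
            | zero => simpa only [Fin.cons_zero, Fin.cons_succ] using hbz
            | succ j => simpa only [Fin.cons_zero, Fin.cons_succ, Fin.tail] using (hud _ (hzL j.succ)).neg_left
      | succ i =>
        induction i using Fin.cases with
        | zero =>
          induction j using Fin.cases with
          | zero => simpa only [Fin.cons_zero, Fin.cons_succ] using haz.symm
          | succ j =>
            induction j using Fin.cases with
            | zero => simpa only [Fin.cons_zero, Fin.cons_succ] using hbz.symm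
            | succ j =>
              induction j using Fin.cases with
              | zero => exact absurd rfl hij
              | succ j =>
                simpa only [Fin.cons_zero, Fin.cons_succ, Fin.tail] using hzd _ (hzL j.succ) (hc 0 j.succ (Fin.succ_ne_zero j).symm)
        | succ i =>
          induction j using Fin.cases with
          | zero => simpa only [Fin.cons_zero, Fin.cons_succ, Fin.tail] using (had _ (hzL i.succ)).symm
          | succ j =>
            induction j using Fin.cases with
            | zero => simpa only [Fin.cons_zero, Fin.cons_succ, Fin.tail] using (hud _ (hzL i.succ)).neg_left.symm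
            | succ j =>
              induction j using Fin.cases with
              | zero =>
                simpa only [Fin.cons_zero, Fin.cons_succ, Fin.tail] using
                  (hzd _ (hzL i.succ) (hc 0 i.succ (Fin.succ_ne_zero i).symm)).symm
              | succ j =>
                have : i.succ ≠ j.succ := fun e => hij (by rw [Fin.succ_inj.1 e])
                simpa only [Fin.cons_zero, Fin.cons_succ, Fin.tail] using hc _ _ this
  · intro i
    induction i using Fin.cases with
    | zero => simpa only [Fin.cons_zero, Fin.cons_succ] using had _ hWL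
    | succ i =>
      induction i using Fin.cases with
      | zero => simpa only [Fin.cons_zero, Fin.cons_succ] using (hud _ hWL).neg_left
      | succ i =>
        induction i using Fin.cases with
        | zero => simpa only [Fin.cons_zero, Fin.cons_succ] using hzd _ hWL (hw 0)
        | succ i => simpa only [Fin.cons_zero, Fin.cons_succ, Fin.tail] using hw i.succ
  · rw [Fin.sum_univ_succ] at hs
    simp only [Fin.sum_univ_succ, Fin.cons_zero, Fin.cons_succ, Fin.tail]
    linarith
  · intro c hcb hsum
    simp only [Fin.sum_univ_succ, Fin.cons_zero, Fin.cons_succ, Fin.tail] at hsum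
    set c' : Fin (r + 1) → ℤ := fun i => c i.succ.succ with hc'
    have hb' : ∀ i, |c' i| ≤ 2 := fun i => hcb _
    have hS := abs_sum_le c' z 2 hb'
    have hS' : ∑ i, c' i * z i = c (Fin.succ (Fin.succ 0)) * z 0 +
        ∑ i : Fin r, c i.succ.succ.succ * z i.succ := by
      rw [Fin.sum_univ_succ]
    set S := ∑ i, c' i * z i with hSdef
    have e0 := abs_le.1 (hcb 0)
    have e1 := abs_le.1 (hcb (Fin.succ 0))
    have e2 := abs_le.1 (hcb (Fin.succ (Fin.succ 0)))
    have hS2 := abs_le.1 hS
    have hz2 := abs_le.1 hz0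
    have key : (c 0 - c (Fin.succ (Fin.succ 0))) * (L * k) +
        ((c 0 - c (Fin.succ 0)) * u + S) = 0 := by rw [hS']; linarith
    have hk1 : u ≤ 2 * k := by rw [hk, hu]; linarith
    have hu1 : 2 * Z < u := by rw [hu]; linarith
    have hbig : 5 * u < L * k := by nlinarith
    have z1 : c 0 - c (Fin.succ (Fin.succ 0)) = 0 := by
      refine eq_zero_of_big _ _ _ key (abs_lt.2 ⟨?_, ?_⟩) <;> nlinarith
    rw [z1, zero_mul, zero_add] at key
    have z2 : c 0 - c (Fin.succ 0) = 0 := eq_zero_of_big _ _ _ key (by linarith)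
    rw [z2, zero_mul, zero_add] at key
    have z3 := hr c' hb' key
    have z4 : c (Fin.succ (Fin.succ 0)) = 0 := z3 0
    intro i
    induction i using Fin.cases with
    | zero => linarith
    | succ i =>
      induction i using Fin.cases with
      | zero => linarith
      | succ i => exact z3 i

lemma exists_good (W C : ℤ) (hW : W ≠ 0) (h2 : (2 : ℤ) ∣ W) (r : ℕ) (z : Fin (r + 1) → ℤ)
    (h : Good W C (r + 1) z) (m : ℕ) : ∃ z', Good W C (r + 2 * m + 1) z' := by
  induction m with
  | zero => exact ⟨z, h⟩
  | succ m ih =>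
    obtain ⟨z', hz'⟩ := ih
    exact step W C hW h2 (r + 2 * m) z' hz'

/-- the radical is at most any positive number divisible by all the primes -/
lemma rad_le (N R : ℤ) (hR : R ≠ 0) (h : ∀ q : ℤ, Prime q → q ∣ N → q ∣ R) :
    ((N.natAbs.primeFactors.prod id : ℕ) : ℤ) ≤ |R| := by
  have : N.natAbs.primeFactors.prod id ∣ R.natAbs := by
    refine Finset.prod_primes_dvd _ (fun a ha => (Nat.prime_of_mem_primeFactors ha).prime)
      fun a ha => ?_
    have hp := Nat.prime_of_mem_primeFactors ha
    have hd := Nat.dvd_of_mem_primeFactors ha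
    exact Int.natCast_dvd.1 (h a (Nat.prime_iff_prime_int.1 hp) (Int.natCast_dvd.2 hd))
  have h2 := Nat.le_of_dvd (Int.natAbs_pos.2 hR) this
  rw [Int.abs_eq_natAbs]
  exact_mod_cast h2

lemma rad_pos (N : ℕ) : 1 ≤ N.primeFactors.prod id :=
  Finset.prod_pos fun _ ha => (Nat.prime_of_mem_primeFactors ha).pos

lemma eventually_rpow (c M : ℝ) (hc : 0 < c) (D N : ℕ) (hD : 0 < D) (hM : N * M < D) :
    ∀ᶠ t : ℝ in atTop, ∀ R : ℝ, 1 ≤ R → R ≤ c * t ^ N → R ^ M < t ^ D := by
  rcases le_or_gt M 0 with hM0 | hM0
  · filter_upwards [eventually_gt_atTop (1 : ℝ)] with t ht R hR _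
    exact lt_of_le_of_lt (Real.rpow_le_one_of_one_le_of_nonpos hR hM0) (one_lt_pow₀ ht hD.ne')
  · have h1 := (tendsto_rpow_atTop (sub_pos.2 hM)).eventually_gt_atTop (c ^ M)
    filter_upwards [h1, eventually_gt_atTop (0 : ℝ)] with t ht ht0 R hR hRc
    have h2 : R ^ M ≤ (c * t ^ N) ^ M := Real.rpow_le_rpow (by linarith) hRc hM0.le
    refine lt_of_le_of_lt h2 ?_
    rw [Real.mul_rpow hc.le (by positivity), ← Real.rpow_natCast, ← Real.rpow_mul ht0.le,
      ← Real.rpow_natCast t D]
    calc c ^ M * t ^ ((N : ℝ) * M) < t ^ ((D : ℝ) - N * M) * t ^ ((N : ℝ) * M) :=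
          mul_lt_mul_of_pos_right ht (Real.rpow_pos_of_pos ht0 _)
      _ = t ^ (D : ℝ) := by rw [← Real.rpow_add ht0]; congr 1; ring

lemma cop (A B R m c d : ℤ) (e : ℕ) (h : IsCoprime A m) (hR : R ∣ m ^ e)
    (he : B * c = R + A * d) : IsCoprime A B := by
  have h1 := ((h.pow_right (n := e)).of_isCoprime_of_dvd_right hR).add_mul_left_right d
  rw [← he] at h1
  exact h1.of_mul_right_left

end Pool.Agent.H741Z.NConj
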