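import Mathlib
import Pool.Agent.H741Z.NConj

set_option autoImplicit false

namespace Pool.Agent.H741Z.NConj

open Filter

def q1 (t : ℤ) : ℤ := 7 * t ^ 2 - 336 * t + 11520
def q2 (t : ℤ) : ℤ := t ^ 2 - 48 * t + 6912

/-- the constant of the degree seven identity -/
def cC : ℤ := 1369826131968
/-- the values at `t = 1`, times two -/
def cW : ℤ := 2 * 7 * 47 * 11191 * 6865

lemma ident (t : ℤ) : t ^ 7 + -(t - 48) ^ 7 + -(q1 t) ^ 3 + 7 * (q2 t) ^ 3 = cC := by
  unfold q1 q2 cC; ring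

lemma good_base : Good cW (-cC) 2 ![-1, 1 - cC] := by
  refine ⟨?_, ?_, ?_, ?_⟩
  · intro i j hij
    fin_cases i <;> fin_cases j
    · exact absurd rfl hij
    · exact isCoprime_one_left.neg_left
    · exact isCoprime_one_right.neg_right
    · exact absurd rfl hij
  · intro i
    fin_cases i
    · exact isCoprime_one_left.neg_left
    · exact Int.isCoprime_iff_gcd_eq_one.2 (by decide +kernel)
  · simp only [Fin.sum_univ_succ, Fin.sum_univ_zero, Matrix.cons_val_zero, Matrix.cons_val_succ]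
    ring
  · intro c hc hs i
    simp only [Fin.sum_univ_succ, Fin.sum_univ_zero, Matrix.cons_val_zero, Matrix.cons_val_succ,
      cC] at hs
    have h0 := abs_le.1 (hc 0)
    have h1 := abs_le.1 (hc (Fin.succ 0))
    fin_cases i
    · show c 0 = 0
      omega
    · show c (Fin.succ 0) = 0
      omega

/-- the tuple -/
def tup {r : ℕ} (z : Fin r → ℤ) (t : ℤ) : Fin (r + 4) → ℤ :=
  Fin.cons (t ^ 7) (Fin.cons (-(t - 48) ^ 7) (Fin.cons (-(q1 t) ^ 3) (Fin.cons (7 * (q2 t) ^ 3) z)))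

lemma tup_sum {r : ℕ} (z : Fin r → ℤ) (h : Good cW (-cC) r z) (t : ℤ) : ∑ i, tup z t i = 0 := by
  simp only [tup, Fin.sum_univ_succ, Fin.cons_zero, Fin.cons_succ, h.2.2.1]
  linarith [ident t]

lemma tup_prod {r : ℕ} (z : Fin r → ℤ) (t : ℤ) : ∏ i, tup z t i =
    t ^ 7 * (-(t - 48) ^ 7 * (-(q1 t) ^ 3 * (7 * (q2 t) ^ 3 * ∏ i, z i))) := by
  simp only [tup, Fin.prod_univ_succ, Fin.cons_zero, Fin.cons_succ]

lemma tup_cop {r : ℕ} (z : Fin r → ℤ) (h : Good cW (-cC) r z) (t : ℤ)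
    (h1 : (210 : ℤ) ∣ t - 1) (h2 : ∀ i, z i ∣ t - 1) :
    ∀ i j, i ≠ j → IsCoprime (tup z t i) (tup z t j) := by
  obtain ⟨s, hs⟩ := h1
  have ht : t = 1 + 210 * s := by linarith
  have a1 : IsCoprime t 210 := ⟨1, -s, by rw [ht]; ring⟩
  have a2 : IsCoprime (t - 48) 210 := by
    have : IsCoprime (-47 : ℤ) 210 := Int.isCoprime_iff_gcd_eq_one.2 (by decide +kernel)
    have := this.add_mul_left_left s
    rwa [show -47 + 210 * s = t - 48 by rw [ht]; ring] at this
  have a3 : IsCoprime (q1 t) 210 := by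
    have : IsCoprime (11191 : ℤ) 210 := Int.isCoprime_iff_gcd_eq_one.2 (by decide +kernel)
    have := this.add_mul_left_left (s * (7 * t - 329))
    rwa [show 11191 + 210 * (s * (7 * t - 329)) = q1 t by rw [ht, q1]; ring] at this
  have b12 : IsCoprime t (t - 48) := cop _ _ (-48) 210 1 1 12 a1 (by decide +kernel) (by ring)
  have b13 : IsCoprime t (q1 t) :=
    cop _ _ 11520 210 1 (7 * t - 336) 12 a1 (by decide +kernel) (by rw [q1]; ring)
  have b14 : IsCoprime t (q2 t) :=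
    cop _ _ 6912 210 1 (t - 48) 12 a1 (by decide +kernel) (by rw [q2]; ring)
  have b23 : IsCoprime (t - 48) (q1 t) :=
    cop _ _ 11520 210 1 (7 * t) 12 a2 (by decide +kernel) (by rw [q1]; ring)
  have b24 : IsCoprime (t - 48) (q2 t) :=
    cop _ _ 6912 210 1 t 12 a2 (by decide +kernel) (by rw [q2]; ring)
  have b34 : IsCoprime (q1 t) (q2 t) :=
    cop _ _ 36864 210 7 1 12 a3 (by decide +kernel) (by rw [q1, q2]; ring)
  have d7 : (7 : ℤ) ∣ 210 := by norm_num
  have c12 : IsCoprime (t ^ 7) (-(t - 48) ^ 7) := b12.pow.neg_right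
  have c13 : IsCoprime (t ^ 7) (-(q1 t) ^ 3) := b13.pow.neg_right
  have c14 : IsCoprime (t ^ 7) (7 * (q2 t) ^ 3) :=
    ((a1.of_isCoprime_of_dvd_right d7).mul_right b14.pow_right).pow_left
  have c23 : IsCoprime (-(t - 48) ^ 7) (-(q1 t) ^ 3) := b23.pow.neg_right.neg_left
  have c24 : IsCoprime (-(t - 48) ^ 7) (7 * (q2 t) ^ 3) :=
    ((a2.of_isCoprime_of_dvd_right d7).mul_right b24.pow_right).pow_left.neg_left
  have c34 : IsCoprime (-(q1 t) ^ 3) (7 * (q2 t) ^ 3) :=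
    ((a3.of_isCoprime_of_dvd_right d7).mul_right b34.pow_right).pow_left.neg_left
  have hz : ∀ i, IsCoprime (t ^ 7) (z i) ∧ IsCoprime (-(t - 48) ^ 7) (z i) ∧
      IsCoprime (-(q1 t) ^ 3) (z i) ∧ IsCoprime (7 * (q2 t) ^ 3) (z i) := by
    intro i
    obtain ⟨e, he⟩ := h2 i
    have ht' : t = 1 + z i * e := by linarith
    have hw := (h.2.1 i).symm
    have w1 : IsCoprime t (z i) := ⟨1, -e, by rw [ht']; ring⟩
    have w2 : IsCoprime (t - 48) (z i) := by
      have := (hw.of_isCoprime_of_dvd_left (x := -47) (by decide +kernel)).add_mul_left_left e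
      rwa [show -47 + z i * e = t - 48 by rw [ht']; ring] at this
    have w3 : IsCoprime (q1 t) (z i) := by
      have := (hw.of_isCoprime_of_dvd_left (x := 11191) (by decide +kernel)).add_mul_left_left
        (e * (7 * t - 329))
      rwa [show 11191 + z i * (e * (7 * t - 329)) = q1 t by
        rw [q1]; linear_combination (-(7 * t - 329)) * he] at this
    have w4 : IsCoprime (q2 t) (z i) := by
      have := (hw.of_isCoprime_of_dvd_left (x := 6865) (by decide +kernel)).add_mul_left_left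
        (e * (t - 47))
      rwa [show 6865 + z i * (e * (t - 47)) = q2 t by
        rw [q2]; linear_combination (-(t - 47)) * he] at this
    have w5 : IsCoprime 7 (z i) := hw.of_isCoprime_of_dvd_left (by decide +kernel)
    exact ⟨w1.pow_left, w2.pow_left.neg_left, w3.pow_left.neg_left, w5.mul_left w4.pow_left⟩
  intro i j hij
  unfold tup
  rcases Fin.eq_zero_or_eq_succ i with rfl | ⟨i, rfl⟩
  · rcases Fin.eq_zero_or_eq_succ j with rfl | ⟨j, rfl⟩
    · exact absurd rfl hij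
    rcases Fin.eq_zero_or_eq_succ j with rfl | ⟨j, rfl⟩
    · simpa only [Fin.cons_zero, Fin.cons_succ] using c12
    rcases Fin.eq_zero_or_eq_succ j with rfl | ⟨j, rfl⟩
    · simpa only [Fin.cons_zero, Fin.cons_succ] using c13
    rcases Fin.eq_zero_or_eq_succ j with rfl | ⟨j, rfl⟩
    · simpa only [Fin.cons_zero, Fin.cons_succ] using c14
    · simpa only [Fin.cons_zero, Fin.cons_succ] using (hz j).1
  rcases Fin.eq_zero_or_eq_succ i with rfl | ⟨i, rfl⟩
  · rcases Fin.eq_zero_or_eq_succ j with rfl | ⟨j, rfl⟩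
    · simpa only [Fin.cons_zero, Fin.cons_succ] using c12.symm
    rcases Fin.eq_zero_or_eq_succ j with rfl | ⟨j, rfl⟩
    · exact absurd rfl hij
    rcases Fin.eq_zero_or_eq_succ j with rfl | ⟨j, rfl⟩
    · simpa only [Fin.cons_zero, Fin.cons_succ] using c23
    rcases Fin.eq_zero_or_eq_succ j with rfl | ⟨j, rfl⟩
    · simpa only [Fin.cons_zero, Fin.cons_succ] using c24
    · simpa only [Fin.cons_zero, Fin.cons_succ] using (hz j).2.1
  rcases Fin.eq_zero_or_eq_succ i with rfl | ⟨i, rfl⟩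
  · rcases Fin.eq_zero_or_eq_succ j with rfl | ⟨j, rfl⟩
    · simpa only [Fin.cons_zero, Fin.cons_succ] using c13.symm
    rcases Fin.eq_zero_or_eq_succ j with rfl | ⟨j, rfl⟩
    · simpa only [Fin.cons_zero, Fin.cons_succ] using c23.symm
    rcases Fin.eq_zero_or_eq_succ j with rfl | ⟨j, rfl⟩
    · exact absurd rfl hij
    rcases Fin.eq_zero_or_eq_succ j with rfl | ⟨j, rfl⟩
    · simpa only [Fin.cons_zero, Fin.cons_succ] using c34
    · simpa only [Fin.cons_zero, Fin.cons_succ] using (hz j).2.2.1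
  rcases Fin.eq_zero_or_eq_succ i with rfl | ⟨i, rfl⟩
  · rcases Fin.eq_zero_or_eq_succ j with rfl | ⟨j, rfl⟩
    · simpa only [Fin.cons_zero, Fin.cons_succ] using c14.symm
    rcases Fin.eq_zero_or_eq_succ j with rfl | ⟨j, rfl⟩
    · simpa only [Fin.cons_zero, Fin.cons_succ] using c24.symm
    rcases Fin.eq_zero_or_eq_succ j with rfl | ⟨j, rfl⟩
    · simpa only [Fin.cons_zero, Fin.cons_succ] using c34.symm
    rcases Fin.eq_zero_or_eq_succ j with rfl | ⟨j, rfl⟩
    · exact absurd rfl hij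
    · simpa only [Fin.cons_zero, Fin.cons_succ] using (hz j).2.2.2
  · rcases Fin.eq_zero_or_eq_succ j with rfl | ⟨j, rfl⟩
    · simpa only [Fin.cons_zero, Fin.cons_succ] using (hz i).1.symm
    rcases Fin.eq_zero_or_eq_succ j with rfl | ⟨j, rfl⟩
    · simpa only [Fin.cons_zero, Fin.cons_succ] using (hz i).2.1.symm
    rcases Fin.eq_zero_or_eq_succ j with rfl | ⟨j, rfl⟩
    · simpa only [Fin.cons_zero, Fin.cons_succ] using (hz i).2.2.1.symm
    rcases Fin.eq_zero_or_eq_succ j with rfl | ⟨j, rfl⟩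
    · simpa only [Fin.cons_zero, Fin.cons_succ] using (hz i).2.2.2.symm
    · have : i ≠ j := fun e => hij (by rw [e])
      simpa only [Fin.cons_zero, Fin.cons_succ] using h.1 i j this

lemma three (c0 c1 c2 A B E K : ℤ) (h1 : |c1| ≤ 2) (h2 : |c2| ≤ 2) (hE : |K| < E)
    (hB : 2 * E + |K| < B) (hA : 2 * B + (2 * E + |K|) < A)
    (h : c0 * A + (c1 * B + (c2 * E + K)) = 0) : c0 = 0 ∧ c1 = 0 ∧ c2 = 0 ∧ K = 0 := by
  have hK := abs_nonneg K
  have a2 : |c2 * E + K| ≤ 2 * E + |K| := by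
    refine (abs_add_le _ _).trans ?_
    rw [abs_mul, abs_of_pos (by linarith : 0 < E)]
    have := mul_le_mul_of_nonneg_right h2 (by linarith : 0 ≤ E)
    linarith
  have a1 : |c1 * B + (c2 * E + K)| ≤ 2 * B + (2 * E + |K|) := by
    refine (abs_add_le _ _).trans ?_
    rw [abs_mul, abs_of_pos (by linarith : 0 < B)]
    have := mul_le_mul_of_nonneg_right h1 (by linarith : 0 ≤ B)
    linarith
  have z0 := eq_zero_of_big _ _ _ h (by linarith)
  rw [z0, zero_mul, zero_add] at h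
  have z1 := eq_zero_of_big _ _ _ h (by linarith)
  rw [z1, zero_mul, zero_add] at h
  have z2 := eq_zero_of_big _ _ _ h hE
  rw [z2, zero_mul, zero_add] at h
  exact ⟨z0, z1, z2, h⟩

lemma tup_rel {r : ℕ} (z : Fin r → ℤ) (h : Good cW (-cC) r z) (t : ℤ)
    (ht : cC + ∑ i, |z i| < t) (b : Fin (r + 4) → ℤ) (hb : ∀ i, |b i| ≤ 1)
    (hs : ∑ i, b i * tup z t i = 0) : ∀ i, b i = b (Fin.succ 0) := by
  simp only [tup, Fin.sum_univ_succ, Fin.cons_zero, Fin.cons_succ] at hs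
  have hZ0 : 0 ≤ ∑ i, |z i| := Finset.sum_nonneg fun i _ => abs_nonneg _
  have hS := abs_le.1 (abs_sum_le (fun i : Fin r => b i.succ.succ.succ.succ) z 1 fun i => hb _)
  set S := ∑ i : Fin r, b i.succ.succ.succ.succ * z i with hSd
  set Z := ∑ i, |z i| with hZ
  have e0 := abs_le.1 (hb 0)
  have e1 := abs_le.1 (hb (Fin.succ 0))
  have e2 := abs_le.1 (hb (Fin.succ (Fin.succ 0)))
  have e3 := abs_le.1 (hb (Fin.succ (Fin.succ (Fin.succ 0))))
  have hC : cC = 1369826131968 := rfl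
  have ht0 : 1000000 ≤ t := by linarith
  have hq2 : t ≤ q2 t := by unfold q2; nlinarith
  have hq2' : q2 t ≤ t ^ 2 := by unfold q2; nlinarith
  have hq1 : 6 * q2 t ≤ q1 t := by unfold q1 q2; nlinarith
  have hq1' : q1 t ≤ 7 * q2 t := by unfold q1 q2; nlinarith
  have hE : t ≤ q2 t ^ 3 := hq2.trans (le_self_pow₀ (by linarith) (by norm_num))
  have hB : 216 * q2 t ^ 3 ≤ q1 t ^ 3 := by
    have := pow_le_pow_left₀ (by linarith) hq1 3
    linarith [mul_pow 6 (q2 t) 3]
  have hB' : q1 t ^ 3 ≤ 343 * q2 t ^ 3 := by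
    have := pow_le_pow_left₀ (by linarith) hq1' 3
    linarith [mul_pow 7 (q2 t) 3]
  have hA : 1000000 * q2 t ^ 3 ≤ t ^ 7 := by
    have h1 := pow_le_pow_left₀ (by linarith) hq2' 3
    have h2 : t ^ 7 = t * (t ^ 2) ^ 3 := by ring
    rw [h2]
    exact mul_le_mul ht0 h1 (by linarith) (by linarith)
  have hid := ident t
  generalize q2 t ^ 3 = E at *
  generalize q1 t ^ 3 = B at *
  generalize t ^ 7 = A at *
  set K := b (Fin.succ 0) * cC + S with hK
  have hK1 : |K| < t := by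
    have h1 : |b (Fin.succ 0) * cC| ≤ cC := by
      rw [abs_mul, abs_of_pos (by linarith : 0 < cC)]
      have := mul_le_mul_of_nonneg_right (hb (Fin.succ 0)) (by linarith : 0 ≤ cC)
      linarith
    have h2 := abs_le.1 h1
    rw [abs_lt, hK]; constructor <;> linarith
  have key : (b 0 - b (Fin.succ 0)) * A + ((b (Fin.succ 0) - b (Fin.succ (Fin.succ 0))) * B +
      ((b (Fin.succ (Fin.succ (Fin.succ 0))) - b (Fin.succ 0)) * (7 * E) + K)) = 0 := by
    rw [hK]; linear_combination hs - b (Fin.succ 0) * hid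
  obtain ⟨z1, z2, z3, key⟩ := three _ _ _ _ _ _ _
    (abs_le.2 ⟨by linarith, by linarith⟩) (abs_le.2 ⟨by linarith, by linarith⟩)
    (by linarith) (by linarith) (by linarith) key
  have z4 := h.2.2.2 (fun i => b i.succ.succ.succ.succ - b (Fin.succ 0)) (fun i => by
      have := abs_le.1 (hb i.succ.succ.succ.succ)
      exact abs_le.2 ⟨by linarith, by linarith⟩) (by
      simp only [sub_mul, Finset.sum_sub_distrib, ← Finset.mul_sum, h.2.2.1]
      rw [← hSd]; linarith)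
  intro i
  rcases Fin.eq_zero_or_eq_succ i with rfl | ⟨i, rfl⟩
  · linarith
  rcases Fin.eq_zero_or_eq_succ i with rfl | ⟨i, rfl⟩
  · rfl
  rcases Fin.eq_zero_or_eq_succ i with rfl | ⟨i, rfl⟩
  · linarith
  rcases Fin.eq_zero_or_eq_succ i with rfl | ⟨i, rfl⟩
  · linarith
  · linarith [z4 i]

lemma tup_rad {r : ℕ} (z : Fin r → ℤ) (w : ℤ) (k : ℕ) (hw : 0 < w) (hP : ∏ i, z i ≠ 0)
    (ht : 1000000 ≤ w ^ k) :
    (((∏ i, tup z (w ^ k) i).natAbs.primeFactors.prod id : ℕ) : ℤ) ≤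
      49 * w * |∏ i, z i| * (w ^ k) ^ 5 := by
  set t := w ^ k with htd
  set P := ∏ i, z i with hPd
  have hq2 : 0 < q2 t := by unfold q2; nlinarith
  have hq2' : q2 t ≤ t ^ 2 := by unfold q2; nlinarith
  have hq1 : 0 < q1 t := by unfold q1; nlinarith
  have hq1' : q1 t ≤ 7 * t ^ 2 := by unfold q1; nlinarith
  have h48 : 0 < t - 48 := by linarith
  have hR : w * ((t - 48) * (q1 t * (7 * q2 t * P))) ≠ 0 := by positivity
  refine (rad_le _ _ hR ?_).trans ?_
  · intro q hq hd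
    rw [tup_prod] at hd
    rcases hq.dvd_or_dvd hd with h | hd
    · exact Dvd.dvd.mul_right (hq.dvd_of_dvd_pow (hq.dvd_of_dvd_pow h)) _
    refine Dvd.dvd.mul_left ?_ _
    rcases hq.dvd_or_dvd hd with h | hd
    · exact Dvd.dvd.mul_right (hq.dvd_of_dvd_pow (dvd_neg.1 h)) _
    refine Dvd.dvd.mul_left ?_ _
    rcases hq.dvd_or_dvd hd with h | hd
    · exact Dvd.dvd.mul_right (hq.dvd_of_dvd_pow (dvd_neg.1 h)) _
    refine Dvd.dvd.mul_left ?_ _
    rcases hq.dvd_or_dvd hd with h | hd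
    · refine Dvd.dvd.mul_right ?_ _
      rcases hq.dvd_or_dvd h with h | h
      · exact Dvd.dvd.mul_right h _
      · exact Dvd.dvd.mul_left (hq.dvd_of_dvd_pow h) _
    · exact Dvd.dvd.mul_left hd _
  · rw [abs_mul, abs_mul, abs_mul, abs_mul, abs_of_pos hw, abs_of_pos h48, abs_of_pos hq1,
      abs_of_pos (by positivity : 0 < 7 * q2 t)]
    calc w * ((t - 48) * (q1 t * (7 * q2 t * |P|)))
        ≤ w * (t * (7 * t ^ 2 * (7 * t ^ 2 * |P|))) := by gcongr; linarith
      _ = 49 * w * |P| * t ^ 5 := by ring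

theorem main (n : ℕ) (hn : 6 ≤ n) (he : Even n) (M : ℝ) (hM : M < 7 / 5) (B : ℕ) :
    ∃ x : Fin n → ℤ, (∀ i, x i ≠ 0) ∧ (∀ i j, i ≠ j → Int.gcd (x i) (x j) = 1) ∧
      ∑ i, x i = 0 ∧
      (∀ b : Fin n → ℤ, (∀ i, |b i| ≤ 1) → ∑ i, b i * x i = 0 → ∀ i j, b i = b j) ∧
      ∃ j, (B : ℤ) < |x j| ∧
        (((∏ i, x i).natAbs.primeFactors.prod id : ℕ) : ℝ) ^ M < |((x j : ℤ) : ℝ)| := by
  obtain ⟨m, rfl⟩ : ∃ m, n = (1 + 2 * m + 1) + 4 := by
    obtain ⟨a, ha⟩ := he
    exact ⟨a - 3, by omega⟩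
  obtain ⟨z, hz⟩ := exists_good cW (-cC) (by decide +kernel) (by decide +kernel) 1 _ good_base m
  set P := ∏ i, z i with hPd
  have hP0 : P ≠ 0 := Finset.prod_ne_zero_iff.2 fun i _ => hz.ne_zero i
  have hP1 : 0 < P ^ 2 := by positivity
  obtain ⟨w, hw⟩ : ∃ w : ℤ, w = 1 + 210 * P ^ 2 := ⟨_, rfl⟩
  have hw1 : 1 < w := by rw [hw]; linarith
  have hwR : (1 : ℝ) < (w : ℝ) := by exact_mod_cast hw1
  have hT : Tendsto (fun k : ℕ => (w : ℝ) ^ k) atTop atTop :=
    tendsto_pow_atTop_atTop_of_one_lt hwR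
  have hc : (0 : ℝ) < ((49 * w * |P| : ℤ) : ℝ) := by
    have : 0 < 49 * w * |P| := by have := abs_pos.2 hP0; positivity
    exact_mod_cast this
  have h1 := hT.eventually (eventually_rpow _ M hc 7 5 (by norm_num) (by push_cast; linarith))
  have h2 := hT.eventually_gt_atTop (((cC + ∑ i, |z i| + B : ℤ)) : ℝ)
  obtain ⟨k, hk1, hk2⟩ := (h1.and h2).exists
  have hk3 : cC + ∑ i, |z i| + B < w ^ k := by exact_mod_cast hk2
  have hZ0 : 0 ≤ ∑ i, |z i| := Finset.sum_nonneg fun i _ => abs_nonneg _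
  have hB0 : (0 : ℤ) ≤ B := Int.natCast_nonneg B
  have hC : cC = 1369826131968 := rfl
  have hd : w - 1 ∣ w ^ k - 1 := by simpa using sub_dvd_pow_sub_pow w 1 k
  have hd1 : (210 : ℤ) ∣ w ^ k - 1 := Dvd.dvd.trans ⟨P ^ 2, by rw [hw]; ring⟩ hd
  have hd2 : ∀ i, z i ∣ w ^ k - 1 := fun i =>
    ((Finset.dvd_prod_of_mem z (Finset.mem_univ i)).trans
      (⟨210 * P, by rw [hw]; ring⟩ : P ∣ w - 1)).trans hd
  have hrel := tup_rel z hz (w ^ k) (by linarith)
  refine ⟨tup z (w ^ k), ?_, fun i j hij => Int.isCoprime_iff_gcd_eq_one.1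
    (tup_cop z hz _ hd1 hd2 i j hij), tup_sum z hz _, fun b hb hs i j => by
      rw [hrel b hb hs i, hrel b hb hs j], 0, ?_, ?_⟩
  · intro i h0
    have := hrel (Pi.single i 1) (fun j => by
      by_cases hj : j = i
      · subst hj; simp
      · simp [Pi.single_eq_of_ne hj]) (by
        rw [Finset.sum_eq_single i]
        · simp [h0]
        · intro j _ hj; simp [Pi.single_eq_of_ne hj]
        · simp)
    obtain ⟨j, hj⟩ := exists_ne i
    have e1 := this i
    have e2 := this j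
    rw [Pi.single_eq_same] at e1
    rw [Pi.single_eq_of_ne hj] at e2
    linarith
  · have : tup z (w ^ k) 0 = (w ^ k) ^ 7 := by simp [tup]
    rw [this]
    have h3 : w ^ k ≤ (w ^ k) ^ 7 := le_self_pow₀ (by linarith) (by norm_num)
    exact lt_of_lt_of_le (by linarith) (le_abs_self _)
  · have : tup z (w ^ k) 0 = (w ^ k) ^ 7 := by simp [tup]
    rw [this]
    refine lt_of_lt_of_le (hk1 _ ?_ ?_) ?_
    · exact_mod_cast rad_pos _
    · have := tup_rad z w k (by linarith) hP0 (by linarith)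
      exact_mod_cast this
    · push_cast
      exact le_abs_self _

end Pool.Agent.H741Z.NConj
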