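import Mathlib
import Pool.Agent.H741Z.NConjSeven

set_option autoImplicit false

namespace Pool.Agent.H741Z.NConj

open Filter

def cub (z : ℤ) : ℤ := 16 * z ^ 3 + 72 * z ^ 2 + 101 * z + 40

/-- the four-term identity of degree seven with seven distinct roots -/
def quad (z : ℤ) : Fin 4 → ℤ :=
  ![-(z ^ 2 * (4 * z + 7) ^ 5), (4 * z - 1) * cub z ^ 2, 7 * (8 * z + 15) ^ 2, 25]

lemma quad_sum (z : ℤ) : ∑ i, quad z i = 0 := by
  simp only [quad, cub, Fin.sum_univ_succ, Fin.sum_univ_zero, Matrix.cons_val_zero,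
    Matrix.cons_val_succ]
  ring

lemma quad_prod (z : ℤ) : ∏ i, quad z i =
    -(z ^ 2 * (4 * z + 7) ^ 5) * ((4 * z - 1) * cub z ^ 2 * (7 * (8 * z + 15) ^ 2 * 5 ^ 2)) := by
  simp only [quad, Fin.prod_univ_succ, Fin.prod_univ_zero, Matrix.cons_val_zero,
    Matrix.cons_val_succ]
  ring

lemma quad_cop (z : ℤ) (h1 : (39270 : ℤ) ∣ z - 1) :
    ∀ i j, i ≠ j → IsCoprime (quad z i) (quad z j) := by
  obtain ⟨s, hs⟩ := h1
  have ht : z = 1 + 39270 * s := by linarith
  have a1 : IsCoprime z 39270 := ⟨1, -s, by rw [ht]; ring⟩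
  have a2 : IsCoprime (4 * z + 7) 70 := by
    have : IsCoprime (11 : ℤ) 70 := Int.isCoprime_iff_gcd_eq_one.2 (by decide +kernel)
    have := this.add_mul_left_left (2244 * s)
    rwa [show 11 + 70 * (2244 * s) = 4 * z + 7 by rw [ht]; ring] at this
  have a3 : IsCoprime (4 * z - 1) 70 := by
    have : IsCoprime (3 : ℤ) 70 := Int.isCoprime_iff_gcd_eq_one.2 (by decide +kernel)
    have := this.add_mul_left_left (2244 * s)
    rwa [show 3 + 70 * (2244 * s) = 4 * z - 1 by rw [ht]; ring] at this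
  have a4 : IsCoprime (cub z) 39270 := by
    have : IsCoprime (229 : ℤ) 39270 := Int.isCoprime_iff_gcd_eq_one.2 (by decide +kernel)
    have := this.add_mul_left_left (s * (16 * z ^ 2 + 88 * z + 189))
    rwa [show 229 + 39270 * (s * (16 * z ^ 2 + 88 * z + 189)) = cub z by
      rw [cub]; linear_combination (-(16 * z ^ 2 + 88 * z + 189)) * hs] at this
  have a5 : IsCoprime (8 * z + 15) 39270 := by
    have : IsCoprime (23 : ℤ) 39270 := Int.isCoprime_iff_gcd_eq_one.2 (by decide +kernel)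
    have := this.add_mul_left_left (8 * s)
    rwa [show 23 + 39270 * (8 * s) = 8 * z + 15 by rw [ht]; ring] at this
  have zb : IsCoprime z (4 * z - 1) := cop _ _ (-1) 39270 1 4 8 a1 (by decide +kernel) (by ring)
  have zc : IsCoprime z (cub z) :=
    cop _ _ 40 39270 1 (16 * z ^ 2 + 72 * z + 101) 8 a1 (by decide +kernel) (by rw [cub]; ring)
  have zd : IsCoprime z (8 * z + 15) := cop _ _ 15 39270 1 8 8 a1 (by decide +kernel) (by ring)
  have ab : IsCoprime (4 * z + 7) (4 * z - 1) :=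
    cop _ _ (-8) 70 1 1 8 a2 (by decide +kernel) (by ring)
  have ac : IsCoprime (4 * z + 7) (cub z) :=
    cop _ _ (-2) 70 1 (4 * z ^ 2 + 11 * z + 6) 8 a2 (by decide +kernel) (by rw [cub]; ring)
  have ad : IsCoprime (4 * z + 7) (8 * z + 15) :=
    cop _ _ 1 70 1 2 8 a2 (by decide +kernel) (by ring)
  have db : IsCoprime (8 * z + 15) (4 * z - 1) :=
    cop _ _ (-17) 39270 2 1 8 a5 (by decide +kernel) (by ring)
  have dc : IsCoprime (8 * z + 15) (cub z) :=
    cop _ _ (-55) 39270 32 (64 * z ^ 2 + 168 * z + 89) 8 a5 (by decide +kernel)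
      (by rw [cub]; ring)
  have f7 : ∀ {A m : ℤ}, IsCoprime A m → (7 : ℤ) ∣ m → IsCoprime A 7 :=
    fun h d => h.of_isCoprime_of_dvd_right d
  have f25 : ∀ {A m : ℤ}, IsCoprime A m → (5 : ℤ) ∣ m → IsCoprime A 25 := fun h d => by
    have := (h.of_isCoprime_of_dvd_right d).pow_right (n := 2)
    norm_num at this
    exact this
  have c01 : IsCoprime (-(z ^ 2 * (4 * z + 7) ^ 5)) ((4 * z - 1) * cub z ^ 2) :=
    (((zb.mul_right zc.pow_right).pow_left).mul_left
      ((ab.mul_right ac.pow_right).pow_left)).neg_left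
  have c02 : IsCoprime (-(z ^ 2 * (4 * z + 7) ^ 5)) (7 * (8 * z + 15) ^ 2) :=
    ((((f7 a1 (by norm_num)).mul_right zd.pow_right).pow_left).mul_left
      (((f7 a2 (by norm_num)).mul_right ad.pow_right).pow_left)).neg_left
  have c03 : IsCoprime (-(z ^ 2 * (4 * z + 7) ^ 5)) 25 :=
    (((f25 a1 (by norm_num)).pow_left).mul_left ((f25 a2 (by norm_num)).pow_left)).neg_left
  have c12 : IsCoprime ((4 * z - 1) * cub z ^ 2) (7 * (8 * z + 15) ^ 2) :=
    ((f7 a3 (by norm_num)).mul_right db.symm.pow_right).mul_left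
      (((f7 a4 (by norm_num)).mul_right dc.symm.pow_right).pow_left)
  have c13 : IsCoprime ((4 * z - 1) * cub z ^ 2) 25 :=
    (f25 a3 (by norm_num)).mul_left (f25 a4 (by norm_num)).pow_left
  have c23 : IsCoprime (7 * (8 * z + 15) ^ 2) 25 :=
    (Int.isCoprime_iff_gcd_eq_one.2 (by decide +kernel) : IsCoprime (7 : ℤ) 25).mul_left
      (f25 a5 (by norm_num)).pow_left
  intro i j hij
  fin_cases i <;> fin_cases j <;>
    first
      | exact absurd rfl hij
      | exact c01 | exact c02 | exact c03 | exact c12 | exact c13 | exact c23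
      | exact c01.symm | exact c02.symm | exact c03.symm | exact c12.symm | exact c13.symm
      | exact c23.symm

lemma quad_big (z : ℤ) (hz : 100 ≤ z) : z ^ 7 ≤ z ^ 2 * (4 * z + 7) ^ 5 := by
  have : z ^ 5 ≤ (4 * z + 7) ^ 5 := pow_le_pow_left₀ (by linarith) (by linarith) 5
  calc z ^ 7 = z ^ 2 * z ^ 5 := by ring
    _ ≤ _ := mul_le_mul_of_nonneg_left this (by positivity)

lemma quad_rel (z : ℤ) (hz : 100 ≤ z) (b : Fin 4 → ℤ) (hb : ∀ i, |b i| ≤ 1)
    (hs : ∑ i, b i * quad z i = 0) : ∀ i, b i = b 1 := by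
  have hid := quad_sum z
  simp only [quad, Fin.sum_univ_four, Matrix.cons_val_zero, Matrix.cons_val_one,
    Matrix.cons_val] at hs hid
  have e0 := abs_le.1 (hb 0)
  have e1 := abs_le.1 (hb 1)
  have e2 := abs_le.1 (hb 2)
  have e3 := abs_le.1 (hb 3)
  have hB : 50 < 7 * (8 * z + 15) ^ 2 := by nlinarith
  have hA : 2 * (7 * (8 * z + 15) ^ 2) + 50 < z ^ 2 * (4 * z + 7) ^ 5 := by
    have h1 : (10 : ℤ) ^ 5 ≤ (4 * z + 7) ^ 5 := pow_le_pow_left₀ (by norm_num) (by linarith) 5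
    have h2 : z ^ 2 * 10 ^ 5 ≤ z ^ 2 * (4 * z + 7) ^ 5 :=
      mul_le_mul_of_nonneg_left h1 (by positivity)
    nlinarith
  generalize 7 * (8 * z + 15) ^ 2 = B at *
  generalize z ^ 2 * (4 * z + 7) ^ 5 = A at *
  have key : (b 1 - b 0) * A + ((b 2 - b 1) * B + ((b 3 - b 1) * 25 + 0)) = 0 := by
    linear_combination hs - b 1 * hid
  obtain ⟨z1, z2, z3, -⟩ := three _ _ _ _ _ _ _
    (abs_le.2 ⟨by linarith, by linarith⟩) (abs_le.2 ⟨by linarith, by linarith⟩)
    (by norm_num) (by rw [abs_zero]; linarith) (by rw [abs_zero]; linarith) key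
  intro i
  fin_cases i
  · show b 0 = b 1
    linarith
  · rfl
  · show b 2 = b 1
    linarith
  · show b 3 = b 1
    linarith

lemma quad_rad (w : ℤ) (k : ℕ) (hw : 0 < w) (ht : 100 ≤ w ^ k) :
    (((∏ i, quad (w ^ k) i).natAbs.primeFactors.prod id : ℕ) : ℤ) ≤
      107100 * w * (w ^ k) ^ 6 := by
  set z := w ^ k with hzd
  have hz0 : 0 < z := by linarith
  have hc : 0 < cub z := by unfold cub; positivity
  have hc' : cub z ≤ 17 * z ^ 3 := by
    unfold cub
    have : 100 * z ^ 2 ≤ z ^ 3 := by nlinarith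
    nlinarith
  have hb : 0 < 4 * z - 1 := by linarith
  have hR : 0 < w * (4 * z + 7) * ((4 * z - 1) * cub z * (7 * (8 * z + 15) * 5)) := by positivity
  refine (rad_le _ _ hR.ne' ?_).trans ?_
  · intro q hq hd
    rw [quad_prod] at hd
    rcases hq.dvd_or_dvd hd with h | hd
    · refine Dvd.dvd.mul_right ?_ _
      rcases hq.dvd_or_dvd (dvd_neg.1 h) with h | h
      · exact Dvd.dvd.mul_right (hq.dvd_of_dvd_pow (hq.dvd_of_dvd_pow h)) _
      · exact Dvd.dvd.mul_left (hq.dvd_of_dvd_pow h) _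
    refine Dvd.dvd.mul_left ?_ _
    rcases hq.dvd_or_dvd hd with h | hd
    · refine Dvd.dvd.mul_right ?_ _
      rcases hq.dvd_or_dvd h with h | h
      · exact Dvd.dvd.mul_right h _
      · exact Dvd.dvd.mul_left (hq.dvd_of_dvd_pow h) _
    refine Dvd.dvd.mul_left ?_ _
    rcases hq.dvd_or_dvd hd with h | h
    · refine Dvd.dvd.mul_right ?_ _
      rcases hq.dvd_or_dvd h with h | h
      · exact Dvd.dvd.mul_right h _
      · exact Dvd.dvd.mul_left (hq.dvd_of_dvd_pow h) _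
    · exact Dvd.dvd.mul_left (hq.dvd_of_dvd_pow h) _
  · rw [abs_of_pos hR]
    calc w * (4 * z + 7) * ((4 * z - 1) * cub z * (7 * (8 * z + 15) * 5))
        ≤ w * (5 * z) * ((4 * z) * (17 * z ^ 3) * (7 * (9 * z) * 5)) := by
          gcongr <;> linarith
      _ = 107100 * w * z ^ 6 := by ring

theorem main4 (M : ℝ) (hM : M < 7 / 6) (B : ℕ) :
    ∃ x : Fin 4 → ℤ, (∀ i, x i ≠ 0) ∧ (∀ i j, i ≠ j → Int.gcd (x i) (x j) = 1) ∧
      ∑ i, x i = 0 ∧
      (∀ b : Fin 4 → ℤ, (∀ i, |b i| ≤ 1) → ∑ i, b i * x i = 0 → ∀ i j, b i = b j) ∧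
      ∃ j, (B : ℤ) < |x j| ∧
        (((∏ i, x i).natAbs.primeFactors.prod id : ℕ) : ℝ) ^ M < |((x j : ℤ) : ℝ)| := by
  obtain ⟨w, hw⟩ : ∃ w : ℤ, w = 39271 := ⟨_, rfl⟩
  have hw1 : 1 < w := by rw [hw]; norm_num
  have hwR : (1 : ℝ) < (w : ℝ) := by exact_mod_cast hw1
  have hT : Tendsto (fun k : ℕ => (w : ℝ) ^ k) atTop atTop :=
    tendsto_pow_atTop_atTop_of_one_lt hwR
  have hc : (0 : ℝ) < ((107100 * w : ℤ) : ℝ) := by
    have : 0 < 107100 * w := by positivity
    exact_mod_cast this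
  have h1 := hT.eventually (eventually_rpow _ M hc 7 6 (by norm_num) (by push_cast; linarith))
  have h2 := hT.eventually_gt_atTop (((100 + B : ℤ)) : ℝ)
  obtain ⟨k, hk1, hk2⟩ := (h1.and h2).exists
  have hk3 : 100 + (B : ℤ) < w ^ k := by exact_mod_cast hk2
  have hB0 : (0 : ℤ) ≤ B := Int.natCast_nonneg B
  have hd : w - 1 ∣ w ^ k - 1 := by simpa using sub_dvd_pow_sub_pow w 1 k
  have hd1 : (39270 : ℤ) ∣ w ^ k - 1 := Dvd.dvd.trans ⟨1, by rw [hw]; norm_num⟩ hd
  have hrel := quad_rel (w ^ k) (by linarith)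
  have hbig := quad_big (w ^ k) (by linarith)
  have h3 : w ^ k ≤ (w ^ k) ^ 7 := le_self_pow₀ (by linarith) (by norm_num)
  have habs : (w ^ k) ^ 7 ≤ |quad (w ^ k) 0| := by
    have : quad (w ^ k) 0 = -((w ^ k) ^ 2 * (4 * w ^ k + 7) ^ 5) := rfl
    rw [this, abs_neg]
    exact hbig.trans (le_abs_self _)
  refine ⟨quad (w ^ k), ?_, fun i j hij => Int.isCoprime_iff_gcd_eq_one.1
    (quad_cop _ hd1 i j hij), quad_sum _, fun b hb hs i j => by
      rw [hrel b hb hs i, hrel b hb hs j], 0, by linarith, ?_⟩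
  · intro i h0
    have := hrel (Pi.single i 1) (fun j => by
      by_cases hj : j = i
      · subst hj; simp
      · simp [Pi.single_eq_of_ne hj]) (by
        rw [Finset.sum_eq_single i]
        · simp [h0]
        · intro j _ hj; simp [Pi.single_eq_of_ne hj]
        · simp)
    obtain ⟨j, hj⟩ := exists_ne i
    have e1 := this i
    have e2 := this j
    rw [Pi.single_eq_same] at e1
    rw [Pi.single_eq_of_ne hj] at e2
    linarith
  · refine lt_of_lt_of_le (hk1 _ ?_ ?_) ?_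
    · exact_mod_cast rad_pos _
    · have := quad_rad w k (by linarith) (by linarith)
      exact_mod_cast this
    · exact_mod_cast habs

end Pool.Agent.H741Z.NConj
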