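import Mathlib
import Pool.Agent.H123Z.GSC.Defs

set_option autoImplicit false
set_option linter.all false

namespace Pool.Agent.H123Z.GSC

namespace H741

open Polynomial Matrix

variable {R : Type} [Ring R]
variable {m n k : Type} [Fintype m] [Fintype n] [Fintype k] [DecidableEq m] [DecidableEq n]
  [DecidableEq k]

/-- isomorphic cokernels -/
def PE (M : Matrix m m R[X]) (N : Matrix n n R[X]) : Prop :=
  ∃ (al al' : Matrix m n R[X]) (be be' : Matrix n m R[X]) (ga : Matrix m m R[X])
    (ga' : Matrix n n R[X]),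
    al * N = M * al' ∧ be * M = N * be' ∧ al * be = 1 + M * ga ∧ be * al = 1 + N * ga'

theorem PE.trans {M : Matrix m m R[X]} {N : Matrix n n R[X]} {K : Matrix k k R[X]}
    (h1 : PE M N) (h2 : PE N K) : PE M K := by
  obtain ⟨a1, a1', b1, b1', g1, g1', e1, e2, e3, e4⟩ := h1
  obtain ⟨a2, a2', b2, b2', g2, g2', f1, f2, f3, f4⟩ := h2
  refine ⟨a1 * a2, a1' * a2', b2 * b1, b2' * b1', g1 + a1' * g2 * b1, g2' + b2' * g1' * a2,
    ?_, ?_, ?_, ?_⟩
  · rw [Matrix.mul_assoc, f1, ← Matrix.mul_assoc, e1, Matrix.mul_assoc]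
  · rw [Matrix.mul_assoc, e2, ← Matrix.mul_assoc, f2, Matrix.mul_assoc]
  · calc a1 * a2 * (b2 * b1) = a1 * (a2 * b2) * b1 := by simp only [Matrix.mul_assoc]
      _ = a1 * b1 + a1 * N * g2 * b1 := by
        rw [f3, Matrix.mul_add, Matrix.mul_one, Matrix.add_mul]; simp only [Matrix.mul_assoc]
      _ = _ := by rw [e3, e1, Matrix.mul_add, add_assoc]; simp only [Matrix.mul_assoc]
  · calc b2 * b1 * (a1 * a2) = b2 * (b1 * a1) * a2 := by simp only [Matrix.mul_assoc]
      _ = b2 * a2 + b2 * N * g1' * a2 := by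
        rw [e4, Matrix.mul_add, Matrix.mul_one, Matrix.add_mul]; simp only [Matrix.mul_assoc]
      _ = _ := by rw [f4, f2, Matrix.mul_add, add_assoc]; simp only [Matrix.mul_assoc]

/-- constant matrices -/
noncomputable def cM (B : Matrix m n R) : Matrix m n R[X] := B.map C

theorem cM_mul (A : Matrix m n R) (B : Matrix n k R) : cM (A * B) = cM A * cM B := by
  ext1 i j
  simp [cM, Matrix.mul_apply]

theorem cM_add (A B : Matrix m n R) : cM (A + B) = cM A + cM B := by
  ext1 i j
  simp [cM]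

theorem cM_sub (A B : Matrix m n R) : cM (A - B) = cM A - cM B := by
  ext1 i j
  simp [cM]

theorem cM_one : cM (1 : Matrix m m R) = 1 := by
  ext1 i j
  by_cases h : i = j <;> simp [cM, Matrix.one_apply, h]

theorem mul_xs (d : ℕ) (A : Matrix m n R[X]) (B : Matrix n k R[X]) :
    A * ((X : R[X]) ^ d • B) = (X : R[X]) ^ d • (A * B) := by
  ext1 i j
  simp only [Matrix.mul_apply, Matrix.smul_apply, smul_eq_mul, Finset.mul_sum]
  refine Finset.sum_congr rfl fun l _ => ?_
  rw [← mul_assoc, ← mul_assoc, ((commute_X (A i l)).pow_left d).eq]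

theorem xs_mul (d : ℕ) (A : Matrix m n R[X]) (B : Matrix n k R[X]) :
    ((X : R[X]) ^ d • A) * B = (X : R[X]) ^ d • (A * B) := Matrix.smul_mul _ _ _

/-- the matrix `1 - X B` -/
noncomputable def oneX (B : Matrix m m R) : Matrix m m R[X] := 1 - (X : R[X]) ^ 1 • cM B

theorem raise1 (B : Matrix m m R) (T : Matrix m n R) (D : ℕ) :
    (X : R[X]) ^ D • cM T = (X : R[X]) ^ (D + 1) • cM (B * T) + oneX B * ((X : R[X]) ^ D • cM T) := by
  rw [oneX, Matrix.sub_mul, Matrix.one_mul, xs_mul, mul_xs, smul_smul, ← pow_add, cM_mul,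
    add_comm 1 D]
  abel

theorem raise (B : Matrix m m R) (T : Matrix m n R) (D j : ℕ) :
    ∃ g : Matrix m n R[X], (X : R[X]) ^ D • cM T = (X : R[X]) ^ (D + j) • cM (B ^ j * T) + oneX B * g := by
  induction j with
  | zero => exact ⟨0, by simp⟩
  | succ j ih =>
    obtain ⟨g, hg⟩ := ih
    refine ⟨(X : R[X]) ^ (D + j) • cM (B ^ j * T) + g, ?_⟩
    rw [hg, Matrix.mul_add, pow_succ' B, Matrix.mul_assoc, ← add_assoc, ← add_assoc,
      ← raise1 B (B ^ j * T) (D + j)]

theorem norm_form (B : Matrix m m R) (f : Matrix m n R[X]) :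
    ∃ D0, ∀ D, D0 ≤ D → ∃ (T : Matrix m n R) (g : Matrix m n R[X]),
      f = (X : R[X]) ^ D • cM T + oneX B * g := by
  have hadd : ∀ f1 f2 : Matrix m n R[X],
      (∃ D0, ∀ D, D0 ≤ D → ∃ (T : Matrix m n R) (g : Matrix m n R[X]),
        f1 = (X : R[X]) ^ D • cM T + oneX B * g) →
      (∃ D0, ∀ D, D0 ≤ D → ∃ (T : Matrix m n R) (g : Matrix m n R[X]),
        f2 = (X : R[X]) ^ D • cM T + oneX B * g) →
      (∃ D0, ∀ D, D0 ≤ D → ∃ (T : Matrix m n R) (g : Matrix m n R[X]),
        f1 + f2 = (X : R[X]) ^ D • cM T + oneX B * g) := by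
    rintro f1 f2 ⟨D1, h1⟩ ⟨D2, h2⟩
    refine ⟨max D1 D2, fun D hD => ?_⟩
    obtain ⟨T1, g1, e1⟩ := h1 D (le_trans (le_max_left _ _) hD)
    obtain ⟨T2, g2, e2⟩ := h2 D (le_trans (le_max_right _ _) hD)
    refine ⟨T1 + T2, g1 + g2, ?_⟩
    rw [e1, e2, cM_add, smul_add, Matrix.mul_add]
    abel
  induction f using Matrix.induction_on' with
  | h_zero => exact ⟨0, fun D _ => ⟨0, 0, by simp [cM]⟩⟩
  | h_add f1 f2 h1 h2 => exact hadd f1 f2 h1 h2
  | h_std_basis i j p =>
    induction p using Polynomial.induction_on' with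
    | add p q hp hq => rw [Matrix.single_add]; exact hadd _ _ hp hq
    | monomial d a =>
      refine ⟨d, fun D hD => ?_⟩
      obtain ⟨e, rfl⟩ := Nat.exists_eq_add_of_le hD
      obtain ⟨g, hg⟩ := raise B (Matrix.single i j a) d e
      refine ⟨_, g, Eq.trans ?_ hg⟩
      ext1 i' j'
      simp only [cM, Matrix.smul_apply, Matrix.map_apply, Matrix.single_apply, smul_eq_mul]
      split_ifs
      · rw [X_pow_mul_C, C_mul_X_pow_eq_monomial]
      · simp

/-- coefficient matrices -/
def cf (j : ℕ) (M : Matrix m n R[X]) : Matrix m n R := M.map fun p => p.coeff j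

theorem cf_oneX_zero (B : Matrix m m R) (g : Matrix m n R[X]) : cf 0 (oneX B * g) = cf 0 g := by
  rw [oneX, Matrix.sub_mul, Matrix.one_mul, xs_mul]
  ext1 i j
  simp [cf]

theorem cf_oneX_succ (B : Matrix m m R) (g : Matrix m n R[X]) (d : ℕ) :
    cf (d + 1) (oneX B * g) = cf (d + 1) g - B * cf d g := by
  rw [oneX, Matrix.sub_mul, Matrix.one_mul, xs_mul]
  ext1 i j
  simp [cf, cM, Matrix.mul_apply, coeff_X_mul]

theorem cf_xs (T : Matrix m n R) (D j : ℕ) :
    cf j ((X : R[X]) ^ D • cM T) = if j = D then T else 0 := by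
  ext1 a b
  simp only [cf, cM, Matrix.map_apply, Matrix.smul_apply, smul_eq_mul, X_pow_mul_C,
    coeff_C_mul_X_pow]
  split_ifs <;> rfl

theorem kill (B : Matrix m m R) (T : Matrix m n R) (D : ℕ) (g : Matrix m n R[X])
    (h : (X : R[X]) ^ D • cM T = oneX B * g) : ∃ k0, ∀ j, k0 ≤ j → B ^ j * T = 0 := by
  have h0 : cf 0 g = if 0 = D then T else 0 := by rw [← cf_oneX_zero B, ← h, cf_xs]
  have hs : ∀ d, cf (d + 1) g = B * cf d g + if d + 1 = D then T else 0 := by
    intro d
    rw [← cf_xs, h, cf_oneX_succ]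
    abel
  have h1 : ∀ d, d < D → cf d g = 0 := by
    intro d
    induction d with
    | zero => intro hd; rw [h0, if_neg hd.ne]
    | succ d ih => intro hd; rw [hs, ih (by omega), if_neg hd.ne]; simp
  have h2 : ∀ j, cf (D + j) g = B ^ j * T := by
    intro j
    induction j with
    | zero =>
      rcases D with _ | D
      · simpa using h0
      · rw [add_zero, hs, h1 D (by omega), if_pos rfl]; simp
    | succ j ih =>
      rw [← add_assoc, hs, ih, if_neg (by omega), add_zero, pow_succ' B, Matrix.mul_assoc]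
  refine ⟨(Finset.univ.sup fun a : m × n => (g a.1 a.2).natDegree) + 1, fun j hj => ?_⟩
  rw [← h2]
  ext1 a b
  have : (g a b).natDegree ≤ Finset.univ.sup fun a : m × n => (g a.1 a.2).natDegree :=
    Finset.le_sup (f := fun a : m × n => (g a.1 a.2).natDegree) (Finset.mem_univ (a, b))
  exact coeff_eq_zero_of_natDegree_lt (by omega)

theorem half (B : Matrix m m R) (Cc : Matrix n n R) (al al' : Matrix m n R[X])
    (be : Matrix n m R[X]) (ga : Matrix m m R[X]) (D : ℕ) (T : Matrix m n R) (S : Matrix n m R)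
    (g : Matrix m n R[X]) (h : Matrix n m R[X])
    (e1 : al * oneX Cc = oneX B * al') (e3 : al * be = 1 + oneX B * ga)
    (ha : al = (X : R[X]) ^ D • cM T + oneX B * g) (hb : be = (X : R[X]) ^ D • cM S + oneX Cc * h) :
    ∃ k0, ∀ j, k0 ≤ j → B * (B ^ j * T) = B ^ j * T * Cc ∧ B ^ j * T * S = B ^ (j + 2 * D) := by
  obtain ⟨k1, hk1⟩ := kill B (B * T - T * Cc) (D + 1)
    (al' - g * oneX Cc - (X : R[X]) ^ D • cM T) (by
      have r := raise1 B T D
      have q : ((X : R[X]) ^ D • cM T) * oneX Cc =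
          (X : R[X]) ^ D • cM T - (X : R[X]) ^ (D + 1) • cM (T * Cc) := by
        rw [oneX, Matrix.mul_sub, Matrix.mul_one, mul_xs, xs_mul, smul_smul, ← pow_add, cM_mul,
          add_comm 1 D]
      rw [Matrix.mul_sub, Matrix.mul_sub, ← e1, ha, Matrix.add_mul, q, cM_sub, smul_sub,
        Matrix.mul_assoc, eq_sub_of_add_eq r.symm]
      abel)
  obtain ⟨u, hu⟩ := raise B (1 : Matrix m m R) 0 (2 * D)
  rw [pow_zero, one_smul, cM_one, zero_add, Matrix.mul_one] at hu
  obtain ⟨k2, hk2⟩ := kill B (T * S - B ^ (2 * D)) (2 * D)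
    (u + ga - al' * h - (X : R[X]) ^ D • (g * cM S)) (by
      have q : al * be = (X : R[X]) ^ (2 * D) • cM (T * S) +
          oneX B * ((X : R[X]) ^ D • (g * cM S)) + oneX B * (al' * h) := by
        rw [hb, Matrix.mul_add, ← Matrix.mul_assoc, e1, Matrix.mul_assoc, mul_xs, mul_xs]
        congr 1
        rw [ha, Matrix.add_mul, xs_mul, smul_add, smul_smul, ← pow_add, ← two_mul, cM_mul,
          Matrix.mul_assoc]
      rw [e3] at q
      rw [Matrix.mul_sub, Matrix.mul_sub, Matrix.mul_add, cM_sub, smul_sub,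
        eq_sub_of_add_eq hu.symm, eq_sub_of_add_eq (eq_sub_of_add_eq q.symm)]
      abel)
  refine ⟨max k1 k2, fun j hj => ⟨?_, ?_⟩⟩
  · have := hk1 j (le_trans (le_max_left _ _) hj)
    rw [Matrix.mul_sub, sub_eq_zero] at this
    rw [Matrix.mul_assoc, ← this, ← Matrix.mul_assoc, ← Matrix.mul_assoc, ← pow_succ,
      ← pow_succ']
  · have := hk2 j (le_trans (le_max_right _ _) hj)
    rw [Matrix.mul_sub, sub_eq_zero] at this
    rw [Matrix.mul_assoc, this, pow_add]

theorem pow_comm_of (B : Matrix m m R) (Cc : Matrix n n R) (T : Matrix m n R)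
    (h : B * T = T * Cc) (j : ℕ) : B ^ j * T = T * Cc ^ j := by
  induction j with
  | zero => simp
  | succ j ih => rw [pow_succ', Matrix.mul_assoc, ih, ← Matrix.mul_assoc, h, Matrix.mul_assoc,
      ← pow_succ']

theorem extract (B : Matrix m m R) (Cc : Matrix n n R) (h : PE (oneX B) (oneX Cc)) :
    ∃ (l : ℕ) (T : Matrix m n R) (S : Matrix n m R), 0 < l ∧ B * T = T * Cc ∧ Cc * S = S * B ∧
      T * S = B ^ l ∧ S * T = Cc ^ l := by
  obtain ⟨al, al', be, be', ga, ga', e1, e2, e3, e4⟩ := h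
  obtain ⟨D1, h1⟩ := norm_form B al
  obtain ⟨D2, h2⟩ := norm_form Cc be
  obtain ⟨T, g, ha⟩ := h1 (D1 + D2 + 1) (by omega)
  obtain ⟨S, h, hb⟩ := h2 (D1 + D2 + 1) (by omega)
  obtain ⟨k1, hk1⟩ := half B Cc al al' be ga _ T S g h e1 e3 ha hb
  obtain ⟨k2, hk2⟩ := half Cc B be be' al ga' _ S T h g e2 e4 hb ha
  obtain ⟨a1, a2⟩ := hk1 (k1 + k2) (by omega)
  obtain ⟨b1, b2⟩ := hk2 (k1 + k2) (by omega)
  refine ⟨(k1 + k2) + (k1 + k2 + 2 * (D1 + D2 + 1)), B ^ (k1 + k2) * T, Cc ^ (k1 + k2) * S,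
    by omega, a1, b1, ?_, ?_⟩
  · rw [← Matrix.mul_assoc, ← pow_comm_of B Cc _ a1, Matrix.mul_assoc, a2, ← pow_add]
  · rw [← Matrix.mul_assoc, ← pow_comm_of Cc B _ b1, Matrix.mul_assoc, b2, ← pow_add]

/-- general companion matrix -/
noncomputable def compM (L : ℕ) (P : Matrix m m R[X]) : Matrix (m × Fin L) (m × Fin L) R :=
  fun a b => (if a.1 = b.1 ∧ (b.2 : ℕ) = (a.2 : ℕ) + 1 then 1 else 0) +
    (if (b.2 : ℕ) = 0 then (P a.1 b.1).coeff ((a.2 : ℕ) + 1) else 0)

theorem oneX_comp_mul (L : ℕ) (P : Matrix m m R[X]) (F : m → ℕ → n → R[X])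
    (hF : ∀ w b, F w (L + 1) b = 0) (w : m) (j : Fin (L + 1)) (b : n) :
    (oneX (compM (L + 1) P) * (Matrix.of fun (a : m × Fin (L + 1)) b => F a.1 a.2 b)) (w, j) b =
      F w j b - X * (F w (j + 1) b + ∑ u, C ((P w u).coeff (j + 1)) * F u 0 b) := by
  rw [oneX, Matrix.sub_mul, Matrix.one_mul, xs_mul]
  simp only [Matrix.sub_apply, Matrix.smul_apply, Matrix.of_apply, smul_eq_mul, pow_one,
    Matrix.mul_apply, cM, Matrix.map_apply, compM, C_add, add_mul, Finset.sum_add_distrib,
    Fintype.sum_prod_type]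
  congr 3
  · rw [Finset.sum_eq_single w]
    · by_cases hj : (j : ℕ) + 1 < L + 1
      · rw [Finset.sum_eq_single ⟨j + 1, hj⟩]
        · simp
        · intro i _ hi
          rw [if_neg, C_0, zero_mul]
          rintro ⟨-, h⟩
          exact hi (Fin.ext h)
        · simp
      · have : (j : ℕ) + 1 = L + 1 := by have := j.2; omega
        rw [this, hF]
        refine Finset.sum_eq_zero fun i _ => ?_
        rw [if_neg, C_0, zero_mul]
        rintro ⟨-, h⟩
        have := i.2
        omega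
    · intro u _ hu
      refine Finset.sum_eq_zero fun i _ => ?_
      rw [if_neg, C_0, zero_mul]
      rintro ⟨h, -⟩
      exact hu h.symm
    · simp
  · refine Finset.sum_congr rfl fun u _ => ?_
    rw [Fin.sum_univ_succ]
    simp

theorem iter_coeff (p : R[X]) (j i : ℕ) : (divX^[j] p).coeff i = p.coeff (i + j) := by
  induction j generalizing i with
  | zero => rfl
  | succ j ih => rw [Function.iterate_succ_apply', coeff_divX, ih]; congr 1; omega

theorem iter_step (p : R[X]) (j : ℕ) :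
    divX^[j] p = X * divX^[j + 1] p + C (p.coeff j) := by
  rw [Function.iterate_succ_apply']
  have := X_mul_divX_add (divX^[j] p)
  rw [iter_coeff, zero_add] at this
  exact this.symm

theorem pe_comp (L : ℕ) (P : Matrix m m R[X]) (h0 : ∀ u w, (P u w).coeff 0 = 0)
    (hL : ∀ u w j, L + 1 < j → (P u w).coeff j = 0) : PE (1 - P) (oneX (compM (L + 1) P)) := by
  refine ⟨Matrix.of fun v a => if v = a.1 then X ^ (a.2 : ℕ) else 0,
    Matrix.of fun v a => if v = a.1 ∧ (a.2 : ℕ) = 0 then 1 else 0,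
    Matrix.of fun a v => if a.1 = v ∧ (a.2 : ℕ) = 0 then 1 else 0,
    Matrix.of fun a v => (fun w (j : ℕ) v => if j = 0 then (if w = v then 1 else 0) else
      X * divX^[j + 1] (P w v)) a.1 a.2 v, 0,
    Matrix.of fun a b => (fun w (j : ℕ) (b : m × Fin (L + 1)) =>
      if w = b.1 ∧ 1 ≤ j ∧ j ≤ (b.2 : ℕ) then -X ^ ((b.2 : ℕ) - j) else 0) a.1 a.2 b,
    ?_, ?_, ?_, ?_⟩
  · ext1 v ⟨w, j⟩
    rw [oneX, Matrix.mul_sub, Matrix.mul_one, mul_xs, Matrix.sub_mul, Matrix.one_mul]
    simp only [Matrix.sub_apply, Matrix.smul_apply, Matrix.of_apply, smul_eq_mul, pow_one,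
      Matrix.mul_apply, cM, Matrix.map_apply, compM, Fintype.sum_prod_type]
    rw [Finset.sum_eq_single v (fun u _ hu => by simp [Ne.symm hu]) (by simp),
      Finset.sum_eq_single w (fun u _ hu => by simp [hu]) (by simp)]
    induction j using Fin.cases with
    | zero =>
      have hp : P v w = ∑ i : Fin (L + 1), X * (C ((P v w).coeff (i + 1)) * X ^ (i : ℕ)) := by
        ext d
        rcases d with _ | d
        · simp [h0]
        · simp only [finset_sum_coeff, coeff_X_mul, coeff_C_mul_X_pow]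
          by_cases hd : d < L + 1
          · rw [Finset.sum_eq_single ⟨d, hd⟩]
            · simp
            · intro i _ hi
              rw [if_neg]
              intro h
              exact hi (Fin.ext (by simp; omega))
            · simp
          · rw [hL _ _ _ (by omega)]
            refine (Finset.sum_eq_zero fun i _ => ?_).symm
            rw [if_neg]
            have := i.2
            omega
      simp [Finset.mul_sum]
      exact hp.symm
    | succ j =>
      rw [Finset.sum_eq_single j.castSucc]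
      · by_cases hv : v = w <;> simp [hv, pow_succ']
      · intro i _ hi
        have : ¬ ((j : ℕ) = i) := fun h => hi (Fin.ext (by simp [h]))
        simp [this]
      · simp
  · ext1 ⟨w, j⟩ v
    rw [oneX_comp_mul L P (fun w (j : ℕ) v => if j = 0 then (if w = v then 1 else 0) else
      X * divX^[j + 1] (P w v)) (fun w b => by
        have : divX^[L + 1 + 1] (P w b) = 0 := by
          ext i
          rw [iter_coeff, hL _ _ _ (by omega), coeff_zero]
        simp [this, -Function.iterate_succ])]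
    rw [Matrix.mul_apply, Finset.sum_eq_single w (fun u _ hu => by simp [Ne.symm hu]) (by simp),
      Finset.sum_eq_single v (fun u _ hu => by simp [hu]) (by simp)]
    simp only [Matrix.of_apply, true_and, if_true, mul_one, Nat.succ_ne_zero, if_false,
      ← iter_step]
    by_cases hj : (j : ℕ) = 0
    · have := iter_step (P w v) 0
      rw [h0, C_0, add_zero] at this
      simp only [hj, if_true, one_mul, Matrix.sub_apply, Matrix.one_apply, ← this]
      rfl
    · simp [hj, -Function.iterate_succ]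
  · ext1 v v'
    simp only [Matrix.mul_zero, add_zero, Matrix.mul_apply, Matrix.of_apply,
      Fintype.sum_prod_type, Matrix.one_apply]
    rw [Finset.sum_eq_single v (fun u _ hu => by simp [Ne.symm hu]) (by simp), Fin.sum_univ_succ]
    simp
  · ext1 ⟨w, j⟩ ⟨u, i⟩
    rw [Matrix.add_apply, oneX_comp_mul L P (fun w (j : ℕ) (b : m × Fin (L + 1)) =>
      if w = b.1 ∧ 1 ≤ j ∧ j ≤ (b.2 : ℕ) then -X ^ ((b.2 : ℕ) - j) else 0) (fun w b => by
        rw [if_neg]
        have := b.2.2
        omega)]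
    rw [Matrix.mul_apply, Finset.sum_eq_single w (fun u _ hu => by simp [Ne.symm hu]) (by simp)]
    simp only [Matrix.of_apply, Matrix.one_apply, Prod.mk.injEq, Fin.ext_iff]
    by_cases hw : w = u
    · subst hw
      obtain ⟨j, hj⟩ := j
      obtain ⟨i, hi⟩ := i
      rcases j with _ | j
      · rcases i with _ | i
        · simp
        · simp [pow_succ']
      · rcases lt_trichotomy (j + 1) i with h | h | h
        · obtain ⟨e, rfl⟩ : ∃ e, i = j + 1 + 1 + e := ⟨i - (j + 2), by omega⟩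
          have h1 : j + 1 + 1 + e - (j + 1) = e + 1 := by omega
          have h2 : ¬ (j + 1 = j + 1 + 1 + e) := by omega
          have h3 : j + 1 ≤ j + 1 + 1 + e := by omega
          simp [h1, h2, h3, pow_succ']
        · subst h
          simp
        · have h2 : ¬ (j + 1 = i) := by omega
          have h3 : ¬ (j + 1 ≤ i) := by omega
          have h4 : ¬ (j + 1 + 1 ≤ i) := by omega
          simp [h2, h3, h4]
    · simp [hw]

/-- one by one matrices -/
def u1 {S : Type} (x : S) : Matrix Unit Unit S := Matrix.of fun _ _ => x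

theorem u1_pow (b : R) (l : ℕ) : (u1 b) ^ l = u1 (b ^ l) := by
  induction l with
  | zero => ext1 i j; simp [u1]
  | succ l ih => rw [pow_succ, ih]; ext1 i j; simp [u1, Matrix.mul_apply, pow_succ]

end H741

open H741 Polynomial in
theorem se_comp : SEComp := by
  intro R _ b E E' H H' Z Y Q L hL e1 e2 e3 e4 hW z0 y0 q0 hdeg
  obtain ⟨L, rfl⟩ : ∃ L', L = L' + 1 := ⟨L - 1, by omega⟩
  set P : Matrix Bool Bool R[X] := Matrix.of fun u w =>
    if w = true then (if u = true then Q + Y else Y) else Z with hP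
  have p1 : PE (oneX (u1 b)) (u1 ((1 - Z) * (1 - Q) - Y)) := by
    have hb : oneX (u1 b) = u1 (1 - X * C b) := by
      ext1 i j; simp [oneX, u1, cM]
    rw [hb, ← hW]
    refine ⟨u1 E', u1 H, u1 E, u1 H', 0, 0, ?_, ?_, ?_, ?_⟩ <;> ext1 i j <;>
      simp only [u1, Matrix.mul_apply, Matrix.of_apply, Finset.univ_unique, Finset.sum_singleton,
        Matrix.mul_zero, add_zero]
    · rw [← mul_assoc, ← mul_assoc, e2, one_mul]
    · rw [mul_assoc _ H, e3, mul_one]
    · simp [e2]
    · simp [e1]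
  have p2 : PE (u1 ((1 - Z) * (1 - Q) - Y)) (1 - P) := by
    refine ⟨Matrix.of fun _ w => if w = true then 1 - Z else Z,
      Matrix.of fun _ w => if w = true then 1 else 0, Matrix.of fun _ _ => 1,
      Matrix.of fun w _ => if w = true then 1 else 1 - Q, 0,
      Matrix.of fun u w => if u = true then 0 else (if w = true then 1 else -1),
      ?_, ?_, ?_, ?_⟩
    · ext1 i w
      cases w <;> simp [hP, u1, Matrix.mul_apply, Matrix.one_apply] <;> noncomm_ring
    · ext1 w i
      cases w <;> simp [hP, u1, Matrix.mul_apply, Matrix.one_apply] <;> noncomm_ring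
    · ext1 i j
      simp [Matrix.mul_apply]
    · ext1 u w
      cases u <;> cases w <;> simp [hP, Matrix.mul_apply, Matrix.one_apply, sub_eq_add_neg]
  have p3 : PE (1 - P) (oneX (compM (L + 1) P)) := by
    refine pe_comp L P (fun u w => ?_) (fun u w j hj => ?_)
    · cases u <;> cases w <;> simp [hP, z0, y0, q0]
    · obtain ⟨a1, a2, a3⟩ := hdeg j hj
      cases u <;> cases w <;> simp [hP, a1, a2, a3]
  have hc : compM (L + 1) P = comp2 (L + 1) Z Y Q := rfl
  obtain ⟨l, T, S, hl, a1, a2, a3, a4⟩ := extract _ _ ((p1.trans p2).trans p3)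
  rw [hc] at a1 a2 a4
  refine ⟨l, fun a => T () a, fun a => S a (), hl, fun a => ?_, fun a => ?_, ?_, fun a a' => ?_⟩
  · simpa [u1, Matrix.mul_apply] using congrFun (congrFun a1 ()) a
  · simpa [u1, Matrix.mul_apply] using (congrFun (congrFun a2 a) ()).symm
  · rw [u1_pow] at a3
    simpa [u1, Matrix.mul_apply] using congrFun (congrFun a3 ()) ()
  · rw [← a4]
    simp [Matrix.mul_apply]

end Pool.Agent.H123Z.GSC
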